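import Pool.Agent.XV.Exact
import Pool.Agent.XV2.Z2

/-!
# `p`-groups with Frattini subgroup of order `p`: the orders of the group and of its centre
-/

set_option autoImplicit false

open Module

namespace Pool.Agent.XV3

open Pool.Agent.APG Pool.Agent.XV Pool.Agent.XV2 Pool.Agent.Helper19.PCP

/-- odd primes: the centre has order `p ^ c`, the group has order `p ^ (2 m + c)` -/
theorem exists_mc_odd {p : ℕ} [Fact p.Prime] (hp2 : p ≠ 2) (P : Type) [Group P] [Finite P]
    (hP : IsPGroup p P) (hna : ∃ a b : P, a * b ≠ b * a) (hF : Nat.card (frattini P) = p)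
    (hz : ∀ z ∈ Subgroup.center P, z ^ p = 1) :
    ∃ m c : ℕ, Nat.card (Subgroup.center P) = p ^ c ∧ Nat.card P = p ^ (2 * m + c) := by
  obtain ⟨d, c0, q, om, F, w0, h, hrad, ⟨E⟩⟩ := exists_one hp2 P hP hna hF
  have hnd : Nd om := by
    intro v hv
    obtain ⟨z, hz1⟩ := E.surj (Multiplicative.ofAdd v)
    have h1 : z ∈ Subgroup.center P := by
      rw [center_iff E h]
      intro v'
      rw [hz1]
      exact hv v'
    have h2 := (pow_iff E h z).1 (hz z h1)
    rw [hz1] at h2
    exact hrad v hv h2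
  obtain ⟨m, hm⟩ := even_finrank _ _ om h.alt hnd rfl
  refine ⟨m, c0, ?_, ?_⟩
  · rw [card_center E h hnd, Module.finrank_fin_fun]
  · have h3 := E.card
    rw [hm, ← two_mul] at h3
    rw [h3, Module.finrank_fin_fun]

/-- the same for the prime two -/
theorem exists_mc_two (P : Type) [Group P] [Finite P]
    (hP : IsPGroup 2 P) (hna : ∃ a b : P, a * b ≠ b * a) (hF : Nat.card (frattini P) = 2)
    (hz : ∀ z ∈ Subgroup.center P, z ^ 2 = 1) :
    ∃ m c : ℕ, Nat.card (Subgroup.center P) = 2 ^ c ∧ Nat.card P = 2 ^ (2 * m + c) := by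
  obtain ⟨d, c0, q, om, Q, w0, h, hrad, ⟨E⟩⟩ := exists_two P hP hna hF
  have hnd : Nd om := by
    intro v hv
    obtain ⟨z, hz1⟩ := E.surj (Multiplicative.ofAdd v)
    have h1 : z ∈ Subgroup.center P := by
      rw [center_iff2 E h]
      intro v'
      rw [hz1]
      exact hv v'
    have h2 := (pow_iff2 E h z).1 (hz z h1)
    rw [hz1] at h2
    exact hrad v hv h2
  obtain ⟨m, hm⟩ := even_finrank _ _ om h.alt hnd rfl
  refine ⟨m, c0, ?_, ?_⟩
  · rw [card_center2 E h hnd, Module.finrank_fin_fun]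
  · have h3 := E.card
    rw [hm, ← two_mul] at h3
    rw [h3, Module.finrank_fin_fun]

end Pool.Agent.XV3
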